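import Pool.Agent.R579.CT.Move
import Pool.Agent.Y566.GQ.Ex1

/-! # Curve-type systems with several parameters

The set of all `s ∈ ℂ^m` for which the system `F(z,v) = 0`, `exp x_i = c_i(s) (A_i/B_i)(z,v)`,
`∑ f_k(s) P_k(x; z, v) = 0` is solvable is a Borel set with countable or cocountable traces on
analytic curves. -/

set_option autoImplicit false

open Filter Topology Polynomial Set MeasureTheory Metric

namespace Pool.Agent.R579.CT

open Pool.Agent.W996.EC Pool.Agent.TH735.QM Pool.Agent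

/-- the parameters `s ∈ ℂ^m` for which the system is solvable -/
def CSet {m n K : ℕ} (F H : ℂ[X][X]) (A B : Fin n → ℂ[X][X]) (c : Fin n → (Fin m → ℂ) → ℂ)
    (f : Fin K → (Fin m → ℂ) → ℂ) (P : Fin K → MvPolynomial (Fin n) ℂ[X][X]) :
    Set (Fin m → ℂ) :=
  {s | ∃ (z v : ℂ) (x : Fin n → ℂ), F.evalEval z v = 0 ∧ H.evalEval z v ≠ 0 ∧
    (∀ i, (A i).evalEval z v ≠ 0 ∧ (B i).evalEval z v ≠ 0) ∧
    (∀ i, Complex.exp (x i) = c i s * ((A i).evalEval z v / (B i).evalEval z v)) ∧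
    ∑ k, f k s * MvPolynomial.eval x (MvPolynomial.map (evalEvalRingHom z v) (P k)) = 0}

theorem CQ_curve {m n K : ℕ} (F H : ℂ[X][X]) (A B : Fin n → ℂ[X][X])
    (c : Fin n → (Fin m → ℂ) → ℂ) (f : Fin K → (Fin m → ℂ) → ℂ)
    (P : Fin K → MvPolynomial (Fin n) ℂ[X][X])
    (hF : Irreducible F) (hd : 1 ≤ F.natDegree) (hH : ¬ F ∣ H) (hAi : ∀ i, ¬ F ∣ A i)
    (hBi : ∀ i, ¬ F ∣ B i) (hc : ∀ i, AnalyticOnNhd ℂ (c i) univ)
    (hf : ∀ k, AnalyticOnNhd ℂ (f k) univ) :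
    CQ m (CSet F H A B c f P) := by
  intro U hU hUc γ hγ
  have h := moved_on hU hUc F H A B (fun i t => c i (γ t)) (fun k t => f k (γ t)) P hF hd hH
    hAi hBi (fun k t ht => (hf k (γ t) (mem_univ _)).comp (hγ t ht))
    (fun i t ht => (hc i (γ t) (mem_univ _)).comp (hγ t ht))
  exact h

theorem cont_value {n : ℕ} (P : MvPolynomial (Fin n) ℂ[X][X]) :
    Continuous fun e : ℂ × ℂ × (Fin n → ℂ) =>
      MvPolynomial.eval e.2.2 (MvPolynomial.map (evalEvalRingHom e.1 e.2.1) P) := by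
  have h : (fun e : ℂ × ℂ × (Fin n → ℂ) =>
      MvPolynomial.eval e.2.2 (MvPolynomial.map (evalEvalRingHom e.1 e.2.1) P)) =
      fun e => ∑ d ∈ P.support, (MvPolynomial.coeff d P).evalEval e.1 e.2.1 *
        ∏ i, e.2.2 i ^ d i := by
    funext e
    rw [MvPolynomial.eval_map, MvPolynomial.eval₂_eq']
    rfl
  rw [h]
  refine continuous_finsetSum _ fun d _ => ?_
  refine Continuous.mul ?_ ?_
  · exact (W973.EC.cont_evalEval' (MvPolynomial.coeff d P)).comp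
      (f := fun e : ℂ × ℂ × (Fin n → ℂ) => (e.1, e.2.1)) (by fun_prop)
  · fun_prop

theorem cont_ee {n : ℕ} (G : ℂ[X][X]) :
    Continuous fun e : ℂ × ℂ × (Fin n → ℂ) => G.evalEval e.1 e.2.1 :=
  (W973.EC.cont_evalEval' G).comp
    (f := fun e : ℂ × ℂ × (Fin n → ℂ) => (e.1, e.2.1)) (by fun_prop)

theorem meas_curve {m n K : ℕ} (F H : ℂ[X][X]) (A B : Fin n → ℂ[X][X])
    (c : Fin n → (Fin m → ℂ) → ℂ) (f : Fin K → (Fin m → ℂ) → ℂ)
    (P : Fin K → MvPolynomial (Fin n) ℂ[X][X]) (hc : ∀ i, AnalyticOnNhd ℂ (c i) univ)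
    (hf : ∀ k, AnalyticOnNhd ℂ (f k) univ) : MeasurableSet (CSet F H A B c f P) := by
  have hfc : ∀ k, Continuous (f k) := fun k => continuousOn_univ.1 (hf k).continuousOn
  have hcc : ∀ i, Continuous (c i) := fun i => continuousOn_univ.1 (hc i).continuousOn
  set N : ℂ × ℂ × (Fin n → ℂ) → ℂ := fun e => H.evalEval e.1 e.2.1 *
    ∏ i, ((A i).evalEval e.1 e.2.1 * (B i).evalEval e.1 e.2.1) with hN
  have hNc : Continuous N := (cont_ee H).mul
    (continuous_finsetProd _ fun i _ => (cont_ee (A i)).mul (cont_ee (B i)))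
  have hN0 : ∀ e, N e ≠ 0 ↔ H.evalEval e.1 e.2.1 ≠ 0 ∧
      ∀ i, (A i).evalEval e.1 e.2.1 ≠ 0 ∧ (B i).evalEval e.1 e.2.1 ≠ 0 := by
    intro e
    rw [hN]
    simp only [ne_eq, mul_eq_zero, Finset.prod_eq_zero_iff, Finset.mem_univ, true_and, not_or,
      not_exists]
  set Z : Set ((Fin m → ℂ) × (ℂ × ℂ × (Fin n → ℂ))) := {p | F.evalEval p.2.1 p.2.2.1 = 0 ∧
    (∀ i, Complex.exp (p.2.2.2 i) * (B i).evalEval p.2.1 p.2.2.1 =
      c i p.1 * (A i).evalEval p.2.1 p.2.2.1) ∧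
    ∑ k, f k p.1 * MvPolynomial.eval p.2.2.2
      (MvPolynomial.map (evalEvalRingHom p.2.1 p.2.2.1) (P k)) = 0} with hZd
  have hZ : IsClosed Z := by
    have c1 : IsClosed {p : (Fin m → ℂ) × (ℂ × ℂ × (Fin n → ℂ)) |
        F.evalEval p.2.1 p.2.2.1 = 0} :=
      isClosed_eq ((cont_ee F).comp continuous_snd) continuous_const
    have c2 : IsClosed (⋂ i, {p : (Fin m → ℂ) × (ℂ × ℂ × (Fin n → ℂ)) |
        Complex.exp (p.2.2.2 i) * (B i).evalEval p.2.1 p.2.2.1 =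
          c i p.1 * (A i).evalEval p.2.1 p.2.2.1}) := by
      refine isClosed_iInter fun i => isClosed_eq ?_
        (((hcc i).comp continuous_fst).mul ((cont_ee (A i)).comp continuous_snd))
      refine Continuous.mul ?_ ((cont_ee (B i)).comp continuous_snd)
      exact Complex.continuous_exp.comp (by fun_prop)
    have c3 : IsClosed {p : (Fin m → ℂ) × (ℂ × ℂ × (Fin n → ℂ)) |
        ∑ k, f k p.1 * MvPolynomial.eval p.2.2.2
          (MvPolynomial.map (evalEvalRingHom p.2.1 p.2.2.1) (P k)) = 0} := by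
      refine isClosed_eq (continuous_finsetSum _ fun k _ => ?_) continuous_const
      exact ((hfc k).comp continuous_fst).mul ((cont_value (P k)).comp continuous_snd)
    have : Z = {p : (Fin m → ℂ) × (ℂ × ℂ × (Fin n → ℂ)) |
        F.evalEval p.2.1 p.2.2.1 = 0} ∩ ((⋂ i, {p : (Fin m → ℂ) × (ℂ × ℂ × (Fin n → ℂ)) |
        Complex.exp (p.2.2.2 i) * (B i).evalEval p.2.1 p.2.2.1 =
          c i p.1 * (A i).evalEval p.2.1 p.2.2.1}) ∩
        {p : (Fin m → ℂ) × (ℂ × ℂ × (Fin n → ℂ)) |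
        ∑ k, f k p.1 * MvPolynomial.eval p.2.2.2
          (MvPolynomial.map (evalEvalRingHom p.2.1 p.2.2.1) (P k)) = 0}) := by
      ext p
      simp only [hZd, Set.mem_inter_iff, Set.mem_iInter, Set.mem_ofPred_eq]
    rw [this]
    exact c1.inter (c2.inter c3)
  have hexp : ∀ (s : Fin m → ℂ) (e : ℂ × ℂ × (Fin n → ℂ)), N e ≠ 0 →
      ((∀ i, Complex.exp (e.2.2 i) * (B i).evalEval e.1 e.2.1 =
        c i s * (A i).evalEval e.1 e.2.1) ↔
        ∀ i, Complex.exp (e.2.2 i) =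
          c i s * ((A i).evalEval e.1 e.2.1 / (B i).evalEval e.1 e.2.1)) := by
    intro s e he
    refine forall_congr' fun i => ?_
    rw [mul_div_assoc']
    exact (eq_div_iff (((hN0 e).1 he).2 i).2).symm
  have h1 : CSet F H A B c f P = ⋃ q : ℕ × ℕ,
      {s | ∃ e ∈ closedBall (0 : ℂ × ℂ × (Fin n → ℂ)) q.1 ∩ {e | 1 / ((q.2 : ℝ) + 1) ≤ ‖N e‖},
        (s, e) ∈ Z} := by
    ext s
    simp only [mem_iUnion]
    constructor
    · rintro ⟨z, v, x, h1, h2, h3, h4, h5⟩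
      have hne : N (z, v, x) ≠ 0 := (hN0 (z, v, x)).2 ⟨h2, h3⟩
      obtain ⟨k, hk⟩ := exists_nat_ge ‖(z, v, x)‖
      obtain ⟨l, hl⟩ := exists_nat_one_div_lt (norm_pos_iff.2 hne)
      refine ⟨(k, l), (z, v, x), ⟨?_, hl.le⟩, h1, (hexp s (z, v, x) hne).2 h4, h5⟩
      rw [mem_closedBall, dist_zero_right]
      exact hk
    · rintro ⟨⟨k, l⟩, ⟨z, v, x⟩, ⟨-, hx⟩, h1, h4, h5⟩
      have h0 : (0 : ℝ) < 1 / ((l : ℝ) + 1) := by positivity
      have hne : N (z, v, x) ≠ 0 := norm_pos_iff.1 (lt_of_lt_of_le h0 hx)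
      have h6 := (hN0 (z, v, x)).1 hne
      exact ⟨z, v, x, h1, h6.1, h6.2, (hexp s (z, v, x) hne).1 h4, h5⟩
  rw [h1]
  refine MeasurableSet.iUnion fun q => (Pool.Agent.Y566.GQ.isClosed_proj hZ ?_).measurableSet
  exact (isCompact_closedBall _ _).inter_right (isClosed_le continuous_const hNc.norm)

end Pool.Agent.R579.CT
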