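import Pool.Agent.W973.EC.Dich
import Pool.Agent.W335.EC.QFin
import Pool.Agent.TH735.QM.Basic

/-! # Curve-type systems with coefficients analytic on a connected open set

Versions of the dichotomy of the EC project (files `W973/EC/Dich` and `W335/EC/QFin`) for families
of equations whose coefficients are analytic functions of the parameter on a connected open set. -/

set_option autoImplicit false

open Filter Topology Polynomial Set

namespace Pool.Agent.R579.CT

open Pool.Agent.W996.EC Pool.Agent.TH735.QM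
open W973.EC

variable {n K : ℕ}

theorem dichU (h1 : S_cnt) (F : ℂ[X][X]) (h : ℂ[X]) (R : Fin n → ℂ × ℂ → ℂ) (hC : Cov F h)
    (hI : Indep (TT F h) R) {U : Set ℂ} (hUc : IsPreconnected U) (f : Fin K → ℂ → ℂ)
    (P : Fin K → MvPolynomial (Fin n) ℂ[X][X]) (hf : ∀ k, AnalyticOnNhd ℂ (f k) U) :
    QmOn U {s : ℂ | ∃ e ∈ ET (TT F h) R,
      ∑ k, f k s * MvPolynomial.eval e.2 (spec (P k) e.1.1 e.1.2) = 0} := by
  set T := TT F h with hT
  set X : Set ℂ := {s : ℂ | ∃ e ∈ ET T R,
    ∑ k, f k s * MvPolynomial.eval e.2 (spec (P k) e.1.1 e.1.2) = 0} with hX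
  by_cases hY : (U \ X).Countable
  · exact Or.inr hY
  left
  rcases (ET T R).eq_empty_or_nonempty with hem | ⟨e0, he0⟩
  · have : X = ∅ := by
      rw [Set.eq_empty_iff_forall_notMem]
      rintro s ⟨e, he, -⟩
      rw [hem] at he
      exact he
    rw [this, Set.inter_empty]
    exact Set.countable_empty
  obtain ⟨Z, hZ, hcnt⟩ := h1 n F h R hC hI
  have hmem : ∀ s ∈ U \ X, ∃ Q ∈ Z, ∃ c : ℂ, c ≠ 0 ∧
      ∀ p ∈ T, spec (PP f P s) p.1 p.2 = MvPolynomial.C c * spec Q p.1 p.2 := by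
    intro s hs
    apply hcnt
    intro e he h0
    rw [eval_PP] at h0
    exact hs.2 ⟨e, he, h0⟩
  obtain ⟨Q, hQ, hQu⟩ : ∃ Q ∈ Z, ¬ {s | s ∈ U \ X ∧ ∃ c : ℂ, c ≠ 0 ∧
      ∀ p ∈ T, spec (PP f P s) p.1 p.2 = MvPolynomial.C c * spec Q p.1 p.2}.Countable := by
    by_contra hcon
    push Not at hcon
    apply hY
    refine (hZ.biUnion hcon).mono ?_
    intro s hs
    obtain ⟨Q, hQ, hc⟩ := hmem s hs
    exact Set.mem_biUnion hQ ⟨hs, hc⟩
  set YQ := {s | s ∈ U \ X ∧ ∃ c : ℂ, c ≠ 0 ∧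
      ∀ p ∈ T, spec (PP f P s) p.1 p.2 = MvPolynomial.C c * spec Q p.1 p.2} with hYQ
  have hYQU : YQ ⊆ U := fun s hs => hs.1.1
  obtain ⟨s0, hs0⟩ : YQ.Nonempty := by
    rw [Set.nonempty_iff_ne_empty]
    intro he
    exact hQu (by rw [he]; exact Set.countable_empty)
  have hQ0 : ∀ e ∈ ET T R, MvPolynomial.eval e.2 (spec Q e.1.1 e.1.2) ≠ 0 := by
    intro e he h0
    obtain ⟨hs0X, c, -, hc⟩ := hs0
    apply hs0X.2
    refine ⟨e, he, ?_⟩
    rw [← eval_PP, hc e.1 he.1, map_mul, h0, mul_zero]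
  have hne : spec Q e0.1.1 e0.1.2 ≠ 0 := by
    intro h0
    apply hQ0 e0 he0
    rw [h0, map_zero]
  obtain ⟨m0, hm0⟩ := MvPolynomial.ne_zero_iff.1 hne
  set a := MvPolynomial.coeff m0 (spec Q e0.1.1 e0.1.2) with ha
  set c : ℂ → ℂ := fun s => MvPolynomial.coeff m0 (spec (PP f P s) e0.1.1 e0.1.2) with hc
  have hdiff : ∀ (m : Fin n →₀ ℕ) (z v : ℂ),
      AnalyticOnNhd ℂ (fun s => MvPolynomial.coeff m (spec (PP f P s) z v)) U := by
    intro m z v
    simp_rw [coeff_PP]
    exact Finset.analyticOnNhd_fun_sum _ fun k _ => (hf k).mul analyticOnNhd_const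
  have hall : ∀ s ∈ U, ∀ (m : Fin n →₀ ℕ), ∀ p ∈ T,
      MvPolynomial.coeff m (spec (PP f P s) p.1 p.2) * a -
        c s * MvPolynomial.coeff m (spec Q p.1 p.2) = 0 := by
    intro s hs m p hp
    refine eq_zero_of_uncountableOn hUc
      (f := fun s => MvPolynomial.coeff m (spec (PP f P s) p.1 p.2) * a -
        c s * MvPolynomial.coeff m (spec Q p.1 p.2)) ?_ hYQU hQu ?_ s hs
    · exact ((hdiff m p.1 p.2).mul analyticOnNhd_const).sub
        ((hdiff m0 _ _).mul analyticOnNhd_const)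
    · rintro s ⟨-, c1, -, hc1⟩
      simp only [hc, ha]
      rw [hc1 p hp, hc1 e0.1 he0.1, MvPolynomial.coeff_C_mul, MvPolynomial.coeff_C_mul]
      ring
  have hprop : ∀ s ∈ U, ∀ p ∈ T, MvPolynomial.C a * spec (PP f P s) p.1 p.2 =
      MvPolynomial.C (c s) * spec Q p.1 p.2 := by
    intro s hs p hp
    ext m
    rw [MvPolynomial.coeff_C_mul, MvPolynomial.coeff_C_mul]
    linear_combination hall s hs m p hp
  have hsub : U ∩ X ⊆ U ∩ {s | c s = 0} := by
    rintro s ⟨hsU, e, he, h0⟩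
    refine ⟨hsU, ?_⟩
    have h2 := congrArg (MvPolynomial.eval e.2) (hprop s hsU e.1 he.1)
    rw [map_mul, map_mul, eval_PP, h0, mul_zero, MvPolynomial.eval_C] at h2
    exact (mul_eq_zero.1 h2.symm).resolve_right (hQ0 e he)
  have hc0 : c s0 ≠ 0 := by
    obtain ⟨-, c1, hc1, hc2⟩ := hs0
    simp only [hc]
    rw [hc2 e0.1 he0.1, MvPolynomial.coeff_C_mul]
    exact mul_ne_zero hc1 hm0
  exact (zeros_countableOn hUc (hdiff m0 _ _) ⟨s0, hYQU hs0, hc0⟩).mono hsub

theorem dichU' (h1 : S_cnt) (h2 : S_conn) {U : Set ℂ} (hUc : IsPreconnected U) :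
    ∀ (n : ℕ) (F : ℂ[X][X]) (h : ℂ[X]) (R : Fin n → ℂ × ℂ → ℂ), Cov F h →
    (∀ i, Reg (TT F h) (R i)) → (∀ i, ∀ p ∈ TT F h, R i p ≠ 0) →
    ∀ (K : ℕ) (f : Fin K → ℂ → ℂ) (P : Fin K → MvPolynomial (Fin n) ℂ[X][X]),
    (∀ k, AnalyticOnNhd ℂ (f k) U) →
    QmOn U {s : ℂ | ∃ e ∈ ET (TT F h) R,
      ∑ k, f k s * MvPolynomial.eval e.2 (spec (P k) e.1.1 e.1.2) = 0} := by
  intro n
  induction n with
  | zero =>
    intro F h R hC hR hR0 K f P hf
    refine dichU h1 F h R hC ⟨hR, hR0, ?_⟩ hUc f P hf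
    intro m hm
    exact absurd (Subsingleton.elim m 0) hm
  | succ n ih =>
    intro F h R hC hR hR0 K f P hf
    by_cases hI : Indep (TT F h) R
    · exact dichU h1 F h R hC hI hUc f P hf
    obtain ⟨m, hm, c0, hc0⟩ : ∃ m : Fin (n + 1) → ℤ, m ≠ 0 ∧
        ∃ c : ℂ, ∀ p ∈ TT F h, ∏ i, R i p ^ m i = c := by
      by_contra hcon
      apply hI
      refine ⟨hR, hR0, fun m hm hc => hcon ⟨m, hm, hc⟩⟩
    set T := TT F h with hT
    rcases T.eq_empty_or_nonempty with hem | ⟨p0, hp0⟩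
    · left
      have : {s : ℂ | ∃ e ∈ ET T R,
          ∑ k, f k s * MvPolynomial.eval e.2 (spec (P k) e.1.1 e.1.2) = 0} = ∅ := by
        rw [Set.eq_empty_iff_forall_notMem]
        rintro s ⟨e, he, -⟩
        have := he.1
        rw [hem] at this
        exact this
      rw [this, Set.inter_empty]
      exact Set.countable_empty
    obtain ⟨b, i0, g, hg, hmg⟩ := exists_basis m hm
    -- the new units
    set S : Fin (n + 1) → ℂ × ℂ → ℂ := fun j p => ∏ i, R i p ^ b j i with hS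
    have hSreg : ∀ j, Reg T (S j) := fun j => reg_prod hR hR0 (b j)
    have hS0 : ∀ j, ∀ p ∈ T, S j p ≠ 0 := fun j p hp =>
      Finset.prod_ne_zero_iff.2 fun i _ => zpow_ne_zero _ (hR0 i p hp)
    have hconst : ∀ p ∈ T, S i0 p = S i0 p0 := by
      refine const_of_pow (h2 F h hC) (hSreg i0) (hS0 i0) g hg c0 (fun p hp => ?_) p0 hp0
      rw [← hc0 p hp, hS]
      simp only
      rw [← Finset.prod_zpow]
      refine Finset.prod_congr rfl fun i _ => ?_
      rw [← zpow_mul, hmg, Pi.smul_apply, smul_eq_mul, mul_comm]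
    set c1 := S i0 p0 with hc1
    have hc1ne : c1 ≠ 0 := hS0 i0 p0 hp0
    set lam := Complex.log c1 with hlam
    have hexplam : Complex.exp lam = c1 := Complex.exp_log hc1ne
    -- the inverse matrix
    set V : Fin (n + 1) → Fin (n + 1) → ℤ := fun i j => b.repr (Pi.single i 1) j with hV
    have hVb : ∀ i k, ∑ j, V i j * b j k = (Pi.single i 1 : Fin (n + 1) → ℤ) k := by
      intro i k
      have h3 := congrFun (b.sum_repr (Pi.single i 1)) k
      rw [← h3, Finset.sum_apply]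
      refine Finset.sum_congr rfl fun j _ => ?_
      rw [Pi.smul_apply, smul_eq_mul]
    set th : ℤ → ℂ := fun N => lam + N * (2 * Real.pi * Complex.I) with hth
    have hexpth : ∀ N, Complex.exp (th N) = c1 := by
      intro N
      rw [hth]
      simp only
      rw [Complex.exp_add, Complex.exp_int_mul_two_pi_mul_I, mul_one, hexplam]
    -- the substitution
    set sb : ℤ → Fin (n + 1) → MvPolynomial (Fin n) ℂ[X][X] := fun N i =>
      MvPolynomial.C (C (C ((V i i0 : ℂ) * th N))) +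
        ∑ j' : Fin n, MvPolynomial.C (C (C ((V i (i0.succAbove j') : ℤ) : ℂ))) *
          MvPolynomial.X j' with hsb
    have hsbe : ∀ N i (ξ : Fin n → ℂ) (z v : ℂ), MvPolynomial.eval ξ (spec (sb N i) z v) =
        (V i i0 : ℂ) * th N + ∑ j' : Fin n, ((V i (i0.succAbove j') : ℤ) : ℂ) * ξ j' := by
      intro N i ξ z v
      rw [hsb]
      unfold spec
      simp only [map_add, map_sum, map_mul, MvPolynomial.map_C, MvPolynomial.map_X,
        MvPolynomial.eval_C, MvPolynomial.eval_X]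
      congr 1
      · simp
      · refine Finset.sum_congr rfl fun j _ => ?_
        simp
    set X : Set ℂ := {s : ℂ | ∃ e ∈ ET T R,
      ∑ k, f k s * MvPolynomial.eval e.2 (spec (P k) e.1.1 e.1.2) = 0} with hX
    set XN : ℤ → Set ℂ := fun N => {s : ℂ | ∃ e ∈ ET T (fun j' : Fin n => S (i0.succAbove j')),
      ∑ k, f k s * MvPolynomial.eval e.2
        (spec (MvPolynomial.bind₁ (sb N) (P k)) e.1.1 e.1.2) = 0} with hXN
    have hdich : ∀ N, QmOn U (XN N) := by
      intro N
      exact ih F h (fun j' => S (i0.succAbove j')) hC (fun j' => hSreg _) (fun j' => hS0 _) K f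
        (fun k => MvPolynomial.bind₁ (sb N) (P k)) hf
    have hXeq : X = ⋃ N, XN N := by
      ext s
      rw [Set.mem_iUnion]
      constructor
      · rintro ⟨⟨p, x⟩, ⟨hp, hx⟩, h0⟩
        change p ∈ T at hp
        change ∀ i, Complex.exp (x i) = R i p at hx
        change ∑ k, f k s * MvPolynomial.eval x (spec (P k) p.1 p.2) = 0 at h0
        set ξ : Fin (n + 1) → ℂ := fun j => ∑ i, (b j i : ℂ) * x i with hξ
        have hexpξ : ∀ j, Complex.exp (ξ j) = S j p := by
          intro j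
          rw [hξ, hS]
          simp only
          rw [Complex.exp_sum]
          refine Finset.prod_congr rfl fun i _ => ?_
          rw [Complex.exp_int_mul, hx]
        obtain ⟨N, hN⟩ : ∃ N : ℤ, ξ i0 = th N := by
          have h3 : Complex.exp (ξ i0) = Complex.exp lam := by
            rw [hexpξ, hconst p hp, hexplam]
          obtain ⟨N, hN⟩ := Complex.exp_eq_exp_iff_exists_int.1 h3
          exact ⟨N, hN⟩
        refine ⟨N, (p, fun j' => ξ (i0.succAbove j')), ⟨hp, fun j' => hexpξ _⟩, ?_⟩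
        change ∑ k, f k s * MvPolynomial.eval (fun j' => ξ (i0.succAbove j'))
          (spec (MvPolynomial.bind₁ (sb N) (P k)) p.1 p.2) = 0
        rw [← h0]
        refine Finset.sum_congr rfl fun k _ => ?_
        rw [eval_spec_bind]
        congr 2
        congr 1
        funext i
        rw [hsbe, ← hN, ← Fin.sum_univ_succAbove (fun j => (V i j : ℂ) * ξ j) i0, hξ]
        simp only [Finset.mul_sum]
        rw [Finset.sum_comm]
        have h5 : ∀ k, ∑ j, (V i j : ℂ) * ((b j k : ℂ) * x k) =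
            ((Pi.single i 1 : Fin (n + 1) → ℤ) k : ℂ) * x k := by
          intro k
          rw [← hVb i k]
          push_cast
          rw [Finset.sum_mul]
          refine Finset.sum_congr rfl fun j _ => ?_
          ring
        rw [Finset.sum_congr rfl fun k _ => h5 k, Finset.sum_eq_single i]
        · simp
        · intro k _ hk
          simp [hk]
        · intro hi
          exact absurd (Finset.mem_univ i) hi
      · rintro ⟨N, ⟨p, ξ'⟩, ⟨hp, hξ'⟩, h0⟩
        change p ∈ T at hp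
        change ∀ j', Complex.exp (ξ' j') = S (i0.succAbove j') p at hξ'
        change ∑ k, f k s * MvPolynomial.eval ξ'
          (spec (MvPolynomial.bind₁ (sb N) (P k)) p.1 p.2) = 0 at h0
        set ξ : Fin (n + 1) → ℂ := Fin.insertNth i0 (th N) ξ' with hξ
        have hξ0 : ξ i0 = th N := Fin.insertNth_apply_same _ _ _
        have hξs : ∀ j', ξ (i0.succAbove j') = ξ' j' := fun j' =>
          Fin.insertNth_apply_succAbove _ _ _ _
        have hexpξ : ∀ j, Complex.exp (ξ j) = S j p := by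
          intro j
          rcases Fin.eq_self_or_eq_succAbove i0 j with rfl | ⟨j', rfl⟩
          · rw [hξ0, hexpth, hconst p hp]
          · rw [hξs, hξ']
        set x : Fin (n + 1) → ℂ := fun i => ∑ j, (V i j : ℂ) * ξ j with hx
        refine ⟨(p, x), ⟨hp, fun i => ?_⟩, ?_⟩
        · change Complex.exp (x i) = R i p
          rw [hx]
          simp only
          rw [Complex.exp_sum]
          have h5 : ∀ j, Complex.exp ((V i j : ℂ) * ξ j) = ∏ k, R k p ^ (V i j * b j k) := by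
            intro j
            rw [Complex.exp_int_mul, hexpξ, hS]
            simp only
            rw [← Finset.prod_zpow]
            refine Finset.prod_congr rfl fun k _ => ?_
            rw [← zpow_mul, mul_comm]
          rw [Finset.prod_congr rfl fun j _ => h5 j, Finset.prod_comm]
          have h6 : ∀ k, ∏ j, R k p ^ (V i j * b j k) =
              R k p ^ ((Pi.single i 1 : Fin (n + 1) → ℤ) k) := by
            intro k
            rw [← hVb i k]
            have : ∀ s : Finset (Fin (n + 1)), ∏ j ∈ s, R k p ^ (V i j * b j k) =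
                R k p ^ (∑ j ∈ s, V i j * b j k) := by
              classical
              intro s
              induction s using Finset.induction_on with
              | empty => simp
              | insert j s hj ih =>
                rw [Finset.prod_insert hj, Finset.sum_insert hj, ih, zpow_add₀ (hR0 k p hp)]
            exact this Finset.univ
          rw [Finset.prod_congr rfl fun k _ => h6 k, Finset.prod_eq_single i]
          · simp
          · intro k _ hk
            simp [hk]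
          · intro hi
            exact absurd (Finset.mem_univ i) hi
        · change ∑ k, f k s * MvPolynomial.eval x (spec (P k) p.1 p.2) = 0
          rw [← h0]
          refine Finset.sum_congr rfl fun k _ => ?_
          rw [eval_spec_bind]
          congr 2
          congr 1
          funext i
          rw [hsbe, hx]
          simp only
          rw [Fin.sum_univ_succAbove (fun j => (V i j : ℂ) * ξ j) i0, hξ0]
          congr 1
          refine Finset.sum_congr rfl fun j' _ => ?_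
          rw [hξs]
    rw [hXeq]
    exact QmOn.iUnion hdich

theorem quasiU (h0 : S_cnt) (h1 : S_conn) (h2 : S_res) (h3 : S_cov) {U : Set ℂ}
    (hUc : IsPreconnected U) (F H : ℂ[X][X]) (A B : Fin n → ℂ[X][X])
    (f : Fin K → ℂ → ℂ) (P : Fin K → MvPolynomial (Fin n) ℂ[X][X]) (hF : Irreducible F)
    (hd : 1 ≤ F.natDegree) (hH : ¬ F ∣ H) (hAi : ∀ i, ¬ F ∣ A i) (hBi : ∀ i, ¬ F ∣ B i)
    (hf : ∀ k, AnalyticOnNhd ℂ (f k) U) : QmOn U (XSet F H A B f P) := by
  classical
  -- the good polynomial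
  obtain ⟨ρH, hρH, hzH⟩ := finite_zeros h2 hF hd hH
  choose ρA hρA hzA using fun i => finite_zeros h2 hF hd (hAi i)
  choose ρB hρB hzB using fun i => finite_zeros h2 hF hd (hBi i)
  obtain ⟨h, hdvd, hC⟩ := h3 F (ρH * ((∏ i, ρA i) * ∏ i, ρB i)) hF hd
    (mul_ne_zero hρH (mul_ne_zero (Finset.prod_ne_zero_iff.2 fun i _ => hρA i)
      (Finset.prod_ne_zero_iff.2 fun i _ => hρB i)))
  have hh0 : ∀ z, h.eval z ≠ 0 → (ρH * ((∏ i, ρA i) * ∏ i, ρB i)).eval z ≠ 0 := by
    intro z hz h0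
    obtain ⟨k, rfl⟩ := hdvd
    rw [eval_mul, h0, zero_mul] at hz
    exact hz rfl
  have hne : ∀ p ∈ TT F h, H.evalEval p.1 p.2 ≠ 0 ∧ (∀ i, (A i).evalEval p.1 p.2 ≠ 0) ∧
      ∀ i, (B i).evalEval p.1 p.2 ≠ 0 := by
    rintro p ⟨hp1, hp2⟩
    have h1 := hh0 p.1 hp2
    rw [eval_mul, eval_mul, eval_prod, eval_prod] at h1
    have h2 := left_ne_zero_of_mul h1
    have h3 := left_ne_zero_of_mul (right_ne_zero_of_mul h1)
    have h4 := right_ne_zero_of_mul (right_ne_zero_of_mul h1)
    rw [Finset.prod_ne_zero_iff] at h3 h4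
    exact ⟨fun h5 => h2 (hzH _ _ hp1 h5), fun i h5 => h3 i (Finset.mem_univ i) (hzA i _ _ hp1 h5),
      fun i h5 => h4 i (Finset.mem_univ i) (hzB i _ _ hp1 h5)⟩
  set R : Fin n → ℂ × ℂ → ℂ := fun i p => (A i).evalEval p.1 p.2 / (B i).evalEval p.1 p.2 with hR
  have hreg : ∀ i, Reg (TT F h) (R i) := fun i => ⟨A i, B i, fun p hp => ⟨(hne p hp).2.2 i, rfl⟩⟩
  have hRne : ∀ i, ∀ p ∈ TT F h, R i p ≠ 0 :=
    fun i p hp => div_ne_zero ((hne p hp).2.1 i) ((hne p hp).2.2 i)
  have hdich := dichU' h0 h1 hUc n F h R hC hreg hRne K f P hf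
  set X1 : Set ℂ := {s : ℂ | ∃ e ∈ ET (TT F h) R,
    ∑ k, f k s * MvPolynomial.eval e.2 (spec (P k) e.1.1 e.1.2) = 0} with hX1
  -- the bad points
  set Bd : Set (ℂ × ℂ × (Fin n → ℂ)) := {e | h.eval e.1 = 0 ∧ F.evalEval e.1 e.2.1 = 0 ∧
    H.evalEval e.1 e.2.1 ≠ 0 ∧ (∀ i, (A i).evalEval e.1 e.2.1 ≠ 0 ∧ (B i).evalEval e.1 e.2.1 ≠ 0) ∧
    ∀ i, Complex.exp (e.2.2 i) = (A i).evalEval e.1 e.2.1 / (B i).evalEval e.1 e.2.1} with hBd
  have hBc : Bd.Countable := by
    have hsub : Bd ⊆ ⋃ z ∈ {z : ℂ | h.eval z = 0}, ⋃ v ∈ {v : ℂ | F.evalEval z v = 0},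
        (fun x : Fin n → ℂ => ((z, v, x) : ℂ × ℂ × (Fin n → ℂ))) ''
          {x | ∀ i, Complex.exp (x i) = (A i).evalEval z v / (B i).evalEval z v} := by
      rintro ⟨z, v, x⟩ hx
      simp only [Set.mem_iUnion]
      exact ⟨z, hx.1, v, hx.2.1, x, hx.2.2.2.2, rfl⟩
    refine Set.Countable.mono hsub ?_
    have hz : {z : ℂ | h.eval z = 0}.Countable := (Polynomial.finite_setOfPred_isRoot hC.hne).countable
    refine hz.biUnion fun z _ => ?_
    have hv : {v : ℂ | F.evalEval z v = 0}.Countable := by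
      have h4 := (Polynomial.finite_setOfPred_isRoot (Pool.W335.EC.map_ne hF hd z)).countable
      refine h4.mono ?_
      intro v hv
      show (F.map (evalRingHom z)).IsRoot v
      rw [Polynomial.IsRoot, ← evalEval_map]
      exact hv
    refine hv.biUnion fun v _ => ?_
    exact (Pool.W335.EC.exp_fibres _).image _
  have hX1sub : X1 ⊆ XSet F H A B f P := by
    rintro s ⟨⟨⟨z, v⟩, x⟩, ⟨hp, hx⟩, hs⟩
    have h5 := hne (z, v) hp
    exact ⟨z, v, x, hp.1, h5.1, fun i => ⟨h5.2.1 i, h5.2.2 i⟩, hx, hs⟩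
  by_cases hall : ∃ e ∈ Bd, ∀ s ∈ U,
      ∑ k, f k s * MvPolynomial.eval e.2.2 (spec (P k) e.1 e.2.1) = 0
  · right
    obtain ⟨⟨z, v, x⟩, he, hs⟩ := hall
    have : U \ (XSet F H A B f P) = ∅ := by
      ext s
      simp only [Set.mem_sdiff, Set.mem_empty_iff_false, iff_false, not_and, not_not]
      intro hsU
      exact ⟨z, v, x, he.2.1, he.2.2.1, he.2.2.2.1, he.2.2.2.2, hs s hsU⟩
    rw [this]
    exact Set.countable_empty
  push Not at hall
  have hX2 : (⋃ e ∈ Bd, U ∩ {s : ℂ |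
      ∑ k, f k s * MvPolynomial.eval e.2.2 (spec (P k) e.1 e.2.1) = 0}).Countable := by
    refine hBc.biUnion fun e he => ?_
    refine zeros_countableOn hUc ?_ (hall e he)
    exact Finset.analyticOnNhd_fun_sum _ fun k _ => (hf k).mul analyticOnNhd_const
  have hXsub : U ∩ XSet F H A B f P ⊆ (U ∩ X1) ∪ ⋃ e ∈ Bd, U ∩ {s : ℂ |
      ∑ k, f k s * MvPolynomial.eval e.2.2 (spec (P k) e.1 e.2.1) = 0} := by
    rintro s ⟨hsU, z, v, x, hzv, hHn, hAB, hx, hs⟩
    by_cases hhz : h.eval z = 0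
    · right
      simp only [Set.mem_iUnion]
      exact ⟨(z, v, x), ⟨hhz, hzv, hHn, hAB, hx⟩, hsU, hs⟩
    · left
      exact ⟨hsU, ((z, v), x), ⟨⟨hzv, hhz⟩, hx⟩, hs⟩
  rcases hdich with h6 | h6
  · left
    exact (h6.union hX2).mono hXsub
  · right
    exact h6.mono (sdiff_subset_sdiff_right hX1sub)

end Pool.Agent.R579.CT
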