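import Pool.Agent.Y566.GQ.Ex1

/-! # Random quantifiers

Closure of the curve-regular Borel sets under quantifiers `μ {y | (s, y) ∈ X} > r` where `y` runs
through an arbitrary measurable space. -/

set_option autoImplicit false

namespace Pool.Agent.R579.CT

open Set Filter Topology MeasureTheory
open scoped ENNReal
open Pool.Agent.TH735.QM

theorem meas_int {m : ℕ} {Y : Type} [MeasurableSpace Y] {X : Set ((Fin m → ℂ) × Y)}
    (hXm : MeasurableSet X) (μ : Measure Y) [SFinite μ] (r : ℝ≥0∞) :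
    MeasurableSet {s | r < μ {y | (s, y) ∈ X}} :=
  measurableSet_lt measurable_const (measurable_measure_prodMk_left hXm)

theorem CQ_int {m : ℕ} {Y : Type} [MeasurableSpace Y] {X : Set ((Fin m → ℂ) × Y)}
    (hXm : MeasurableSet X) (hX : ∀ y, CQ m {s | (s, y) ∈ X}) (μ : Measure Y) [SFinite μ]
    (r : ℝ≥0∞) : CQ m {s | r < μ {y | (s, y) ∈ X}} := by
  intro U hU hUc γ hγ
  classical
  by_contra hcon
  unfold QmOn at hcon
  push Not at hcon
  obtain ⟨hc1, hc0⟩ := hcon
  have hγc : ContinuousOn γ U := hγ.continuousOn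
  have hγm : Measurable (U.piecewise γ (fun _ => 0)) :=
    hγc.measurable_piecewise continuousOn_const hU.measurableSet
  set γ' := U.piecewise γ (fun _ => 0) with hγ'
  have heq : ∀ t ∈ U, γ' t = γ t := fun t ht => Set.piecewise_eq_of_mem _ _ _ ht
  have hW : MeasurableSet {p : ℂ × Y | (γ' p.1, p.2) ∈ X} :=
    ((hγm.comp measurable_fst).prodMk measurable_snd) hXm
  have hΦ : Measurable (fun t : ℂ => μ {y | (γ' t, y) ∈ X}) := measurable_measure_prodMk_left hW
  have hA1 : U ∩ γ ⁻¹' {s | r < μ {y | (s, y) ∈ X}} = U ∩ {t | r < μ {y | (γ' t, y) ∈ X}} := by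
    ext t
    constructor
    · rintro ⟨ht, h⟩
      refine ⟨ht, ?_⟩
      show r < μ {y | (γ' t, y) ∈ X}
      rw [heq t ht]
      exact h
    · rintro ⟨ht, h⟩
      refine ⟨ht, ?_⟩
      have h' : r < μ {y | (γ' t, y) ∈ X} := h
      rw [heq t ht] at h'
      exact h'
  have hA0 : U \ γ ⁻¹' {s | r < μ {y | (s, y) ∈ X}} = U ∩ {t | μ {y | (γ' t, y) ∈ X} ≤ r} := by
    ext t
    constructor
    · rintro ⟨ht, h⟩
      refine ⟨ht, ?_⟩
      show μ {y | (γ' t, y) ∈ X} ≤ r
      rw [heq t ht]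
      exact not_lt.1 h
    · rintro ⟨ht, h⟩
      refine ⟨ht, ?_⟩
      have h' : μ {y | (γ' t, y) ∈ X} ≤ r := h
      rw [heq t ht] at h'
      exact not_lt.2 h'
  rw [hA1] at hc1
  rw [hA0] at hc0
  have hA1m : MeasurableSet (U ∩ {t | r < μ {y | (γ' t, y) ∈ X}}) :=
    hU.measurableSet.inter (measurableSet_lt measurable_const hΦ)
  have hA0m : MeasurableSet (U ∩ {t | μ {y | (γ' t, y) ∈ X} ≤ r}) :=
    hU.measurableSet.inter (measurableSet_le hΦ measurable_const)
  obtain ⟨ν1, hf1, hs1, hu1, hc1'⟩ := Pool.Agent.Y566.GQ.exists_atomless hA1m hc1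
  obtain ⟨ν0, hf0, hs0, hu0, hc0'⟩ := Pool.Agent.Y566.GQ.exists_atomless hA0m hc0
  -- the level `r` is finite
  have hr : r ≠ ⊤ := by
    have hne : (U ∩ {t | r < μ {y | (γ' t, y) ∈ X}}).Nonempty := by
      rw [Set.nonempty_iff_ne_empty]
      intro h
      exact hc1 (by rw [h]; exact Set.countable_empty)
    obtain ⟨t, -, ht⟩ := hne
    exact ne_top_of_lt ht
  -- every section has full or zero measure
  have hsec : ∀ (ν : Measure ℂ) (A : Set ℂ), A ⊆ U → ν Aᶜ = 0 →
      (∀ S : Set ℂ, S.Countable → ν S = 0) → ∀ y,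
      ((U ∩ γ ⁻¹' {s | (s, y) ∈ X}).Countable → ν {t | (γ' t, y) ∈ X} = 0) ∧
      ((U \ γ ⁻¹' {s | (s, y) ∈ X}).Countable → ν {t | (γ' t, y) ∈ X} = ν univ) := by
    intro ν A hAU hA hcz y
    constructor
    · intro h
      refine measure_mono_null ?_ (measure_union_null hA (hcz _ h))
      intro t ht
      by_cases htA : t ∈ A
      · right
        refine ⟨hAU htA, ?_⟩
        have h' : (γ' t, y) ∈ X := ht
        rw [heq t (hAU htA)] at h'
        exact h'
      · exact Or.inl htA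
    · intro h
      have h0 : ν {t | (γ' t, y) ∈ X}ᶜ = 0 := by
        refine measure_mono_null ?_ (measure_union_null hA (hcz _ h))
        intro t ht
        by_cases htA : t ∈ A
        · right
          refine ⟨hAU htA, fun h2 => ht ?_⟩
          show (γ' t, y) ∈ X
          rw [heq t (hAU htA)]
          exact h2
        · exact Or.inl htA
      apply le_antisymm (measure_mono (subset_univ _))
      calc ν univ ≤ ν {t | (γ' t, y) ∈ X} + ν {t | (γ' t, y) ∈ X}ᶜ := by
            rw [← union_compl_self {t | (γ' t, y) ∈ X}]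
            exact measure_union_le _ _
        _ = ν {t | (γ' t, y) ∈ X} := by rw [h0, add_zero]
  have hkey : ∀ y, ν0 univ * ν1 {t | (γ' t, y) ∈ X} = ν1 univ * ν0 {t | (γ' t, y) ∈ X} := by
    intro y
    have a1 := hsec ν1 _ inter_subset_left hs1 hc1' y
    have a0 := hsec ν0 _ inter_subset_left hs0 hc0' y
    rcases hX y U hU hUc γ hγ with h | h
    · rw [a1.1 h, a0.1 h, mul_zero, mul_zero]
    · rw [a1.2 h, a0.2 h, mul_comm]
  -- Tonelli
  have hT : ∀ (ν : Measure ℂ) [IsFiniteMeasure ν],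
      ∫⁻ t, μ {y | (γ' t, y) ∈ X} ∂ν = ∫⁻ y, ν {t | (γ' t, y) ∈ X} ∂μ := by
    intro ν _
    have h1 := Measure.prod_apply (μ := ν) (ν := μ) hW
    have h2 := Measure.prod_apply_symm (μ := ν) (ν := μ) hW
    exact h1.symm.trans h2
  have h1 : r * ν1 univ < ∫⁻ t, μ {y | (γ' t, y) ∈ X} ∂ν1 := by
    have hν : ν1 ≠ 0 := by
      intro h
      apply hu1
      rw [h]
      simp
    have h2 := lintegral_strict_mono (μ := ν1) (f := fun _ => r)
      (g := fun t => μ {y | (γ' t, y) ∈ X}) hν hΦ.aemeasurable (by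
        rw [lintegral_const]
        exact ENNReal.mul_ne_top hr (measure_ne_top ν1 univ)) (by
        have h3 : ∀ᵐ t ∂ν1, t ∈ U ∩ {t | r < μ {y | (γ' t, y) ∈ X}} := hs1
        filter_upwards [h3] with t ht
        exact ht.2)
    rwa [lintegral_const] at h2
  have h0 : ∫⁻ t, μ {y | (γ' t, y) ∈ X} ∂ν0 ≤ r * ν0 univ := by
    have h2 := lintegral_mono_ae (μ := ν0) (f := fun t => μ {y | (γ' t, y) ∈ X})
      (g := fun _ => r) (by
        have h3 : ∀ᵐ t ∂ν0, t ∈ U ∩ {t | μ {y | (γ' t, y) ∈ X} ≤ r} := hs0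
        filter_upwards [h3] with t ht
        exact ht.2)
    rwa [lintegral_const] at h2
  have h4 : ν0 univ * ∫⁻ t, μ {y | (γ' t, y) ∈ X} ∂ν1 =
      ν1 univ * ∫⁻ t, μ {y | (γ' t, y) ∈ X} ∂ν0 := by
    rw [hT ν1, hT ν0, ← lintegral_const_mul' _ _ (measure_ne_top ν0 univ),
      ← lintegral_const_mul' _ _ (measure_ne_top ν1 univ)]
    exact lintegral_congr hkey
  have h5 : ν0 univ * (r * ν1 univ) < ν0 univ * ∫⁻ t, μ {y | (γ' t, y) ∈ X} ∂ν1 :=
    ENNReal.mul_lt_mul_right hu0 (measure_ne_top ν0 univ) h1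
  have h6 : ν1 univ * ∫⁻ t, μ {y | (γ' t, y) ∈ X} ∂ν0 ≤ ν1 univ * (r * ν0 univ) := by
    gcongr
  rw [h4] at h5
  have h7 : ν0 univ * (r * ν1 univ) = ν1 univ * (r * ν0 univ) := by ring
  rw [h7] at h5
  exact absurd (h5.trans_le h6) (lt_irrefl _)

end Pool.Agent.R579.CT
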