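import Pool.Agent.R579.CT.Dich
import Pool.Agent.TH735.QM.Local
import Pool.Agent.W996.EC.QFinal

/-! # Curve-type systems with a moving translate of the curve in the torus

The system `F(z,v) = 0`, `exp x_i = c_i(s) (A_i/B_i)(z,v)`, `∑ f_k(s) P_k(x; z, v) = 0` with
coefficients `c_i`, `f_k` analytic on a connected open set. -/

set_option autoImplicit false

open Filter Topology Polynomial Set Metric

namespace Pool.Agent.R579.CT

open Pool.Agent.W996.EC Pool.Agent.TH735.QM Pool.Agent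

theorem quasi_on {n K : ℕ} {U : Set ℂ} (hUc : IsPreconnected U) (F H : ℂ[X][X])
    (A B : Fin n → ℂ[X][X]) (f : Fin K → ℂ → ℂ) (P : Fin K → MvPolynomial (Fin n) ℂ[X][X])
    (hF : Irreducible F) (hd : 1 ≤ F.natDegree) (hH : ¬ F ∣ H) (hAi : ∀ i, ¬ F ∣ A i)
    (hBi : ∀ i, ¬ F ∣ B i) (hf : ∀ k, AnalyticOnNhd ℂ (f k) U) :
    QmOn U (XSet F H A B f P) :=
  quasiU (W930.ECCnt.t_cnt gen bdd W114.ECR.t_res) W114.ECC.t_conn W114.ECR.t_res
    W114.ECR.t_cov hUc F H A B f P hF hd hH hAi hBi hf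

/-- expansion of `P(x + h; z, v)` -/
theorem shift_expand {n : ℕ} (P : MvPolynomial (Fin n) ℂ[X][X]) :
    ∃ (ι : Type) (_ : Fintype ι) (G : ι → MvPolynomial (Fin n) ℂ)
      (Q : ι → MvPolynomial (Fin n) ℂ[X][X]), ∀ (h x : Fin n → ℂ) (z v : ℂ),
      MvPolynomial.eval (fun i => x i + h i) (MvPolynomial.map (evalEvalRingHom z v) P) =
        ∑ j, MvPolynomial.eval h (G j) *
          MvPolynomial.eval x (MvPolynomial.map (evalEvalRingHom z v) (Q j)) := by
  induction P using MvPolynomial.induction_on with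
  | C a =>
    refine ⟨Unit, inferInstance, fun _ => 1, fun _ => MvPolynomial.C a, fun h x z v => ?_⟩
    simp
  | add p q hp hq =>
    obtain ⟨ι, _, G, Q, h1⟩ := hp
    obtain ⟨ι', _, G', Q', h2⟩ := hq
    refine ⟨ι ⊕ ι', inferInstance, Sum.elim G G', Sum.elim Q Q', fun h x z v => ?_⟩
    rw [map_add, map_add, h1, h2, Fintype.sum_sum_type]
    rfl
  | mul_X p i hp =>
    obtain ⟨ι, _, G, Q, h1⟩ := hp
    refine ⟨ι ⊕ ι, inferInstance, Sum.elim G (fun j => G j * MvPolynomial.X i),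
      Sum.elim (fun j => Q j * MvPolynomial.X i) Q, fun h x z v => ?_⟩
    rw [map_mul, map_mul, h1, Fintype.sum_sum_type, MvPolynomial.map_X, MvPolynomial.eval_X,
      mul_add, Finset.sum_mul, Finset.sum_mul]
    congr 1
    · refine Finset.sum_congr rfl fun j _ => ?_
      simp only [Sum.elim_inl, map_mul, MvPolynomial.map_X, MvPolynomial.eval_X]
      ring
    · refine Finset.sum_congr rfl fun j _ => ?_
      simp only [Sum.elim_inr, map_mul, MvPolynomial.eval_X]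
      ring

/-- the moved system -/
def MSet {n K : ℕ} (F H : ℂ[X][X]) (A B : Fin n → ℂ[X][X]) (c : Fin n → ℂ → ℂ)
    (f : Fin K → ℂ → ℂ) (P : Fin K → MvPolynomial (Fin n) ℂ[X][X]) : Set ℂ :=
  {s | ∃ (z v : ℂ) (x : Fin n → ℂ), F.evalEval z v = 0 ∧ H.evalEval z v ≠ 0 ∧
    (∀ i, (A i).evalEval z v ≠ 0 ∧ (B i).evalEval z v ≠ 0) ∧
    (∀ i, Complex.exp (x i) = c i s * ((A i).evalEval z v / (B i).evalEval z v)) ∧
    ∑ k, f k s * MvPolynomial.eval x (MvPolynomial.map (evalEvalRingHom z v) (P k)) = 0}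

theorem analytic_value {n : ℕ} {U : Set ℂ} (G : MvPolynomial (Fin n) ℂ) (h : ℂ → Fin n → ℂ)
    (hh : ∀ i, AnalyticOnNhd ℂ (fun s => h s i) U) :
    AnalyticOnNhd ℂ (fun s => MvPolynomial.eval (h s) G) U := by
  intro s hs
  have h1 := AnalyticAt.aeval_mvPolynomial (𝕜 := ℂ) (f := h) (z := s) (fun i => hh i s hs) G
  simpa [MvPolynomial.coe_aeval_eq_eval] using h1

/-- the moved system where the factors have logarithms -/
theorem moved_of_log {n K : ℕ} {U : Set ℂ} (hUc : IsPreconnected U) (F H : ℂ[X][X])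
    (A B : Fin n → ℂ[X][X]) (c : Fin n → ℂ → ℂ) (f : Fin K → ℂ → ℂ)
    (P : Fin K → MvPolynomial (Fin n) ℂ[X][X])
    (hF : Irreducible F) (hd : 1 ≤ F.natDegree) (hH : ¬ F ∣ H) (hAi : ∀ i, ¬ F ∣ A i)
    (hBi : ∀ i, ¬ F ∣ B i) (hf : ∀ k, AnalyticOnNhd ℂ (f k) U)
    (h : ℂ → Fin n → ℂ) (hh : ∀ i, AnalyticOnNhd ℂ (fun s => h s i) U)
    (hc : ∀ i, ∀ s ∈ U, Complex.exp (h s i) = c i s) :
    QmOn U (MSet F H A B c f P) := by
  classical
  choose ι inst G Q hGQ using fun k => shift_expand (P k)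
  set κ := Σ k : Fin K, ι k with hκ
  set e := Fintype.equivFin κ with he
  have h1 := quasi_on hUc F H A B
    (fun (l : Fin (Fintype.card κ)) s => f (e.symm l).1 s *
      MvPolynomial.eval (h s) (G (e.symm l).1 (e.symm l).2))
    (fun l => Q (e.symm l).1 (e.symm l).2) hF hd hH hAi hBi
    (fun l => (hf _).mul (analytic_value _ h hh))
  have hsum : ∀ (s z v : ℂ) (x : Fin n → ℂ),
      ∑ k, f k s * MvPolynomial.eval (fun i => x i + h s i)
        (MvPolynomial.map (evalEvalRingHom z v) (P k)) =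
      ∑ l : Fin (Fintype.card κ), (f (e.symm l).1 s *
        MvPolynomial.eval (h s) (G (e.symm l).1 (e.symm l).2)) *
        MvPolynomial.eval x (MvPolynomial.map (evalEvalRingHom z v)
          (Q (e.symm l).1 (e.symm l).2)) := by
    intro s z v x
    rw [e.symm.sum_comp (fun p : κ => (f p.1 s * MvPolynomial.eval (h s) (G p.1 p.2)) *
        MvPolynomial.eval x (MvPolynomial.map (evalEvalRingHom z v) (Q p.1 p.2))),
      Fintype.sum_sigma]
    refine Finset.sum_congr rfl fun k _ => ?_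
    rw [hGQ, Finset.mul_sum]
    refine Finset.sum_congr rfl fun j _ => ?_
    ring
  refine h1.congr' ?_
  intro s hs
  constructor
  · rintro ⟨z, v, x, a1, a2, a3, a4, a5⟩
    refine ⟨z, v, fun i => x i + h s i, a1, a2, a3, fun i => ?_, ?_⟩
    · rw [Complex.exp_add, a4 i, hc i s hs, mul_comm]
    · rw [hsum]
      exact a5
  · rintro ⟨z, v, x, a1, a2, a3, a4, a5⟩
    refine ⟨z, v, fun i => x i - h s i, a1, a2, a3, fun i => ?_, ?_⟩
    · have hne : c i s ≠ 0 := by
        rw [← hc i s hs]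
        exact Complex.exp_ne_zero _
      rw [Complex.exp_sub, a4 i, hc i s hs]
      field_simp
    · have h2 := hsum s z v (fun i => x i - h s i)
      simp only [sub_add_cancel] at h2
      exact h2.symm.trans a5

/-- local logarithms -/
theorem local_log {n : ℕ} {U : Set ℂ} (hU : IsOpen U) {c : Fin n → ℂ → ℂ}
    (hc : ∀ i, AnalyticOnNhd ℂ (c i) U) {t : ℂ} (ht : t ∈ U) (h0 : ∀ i, c i t ≠ 0) :
    ∃ r > 0, ball t r ⊆ U ∧ ∃ h : ℂ → Fin n → ℂ,
      (∀ i, AnalyticOnNhd ℂ (fun s => h s i) (ball t r)) ∧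
      ∀ i, ∀ s ∈ ball t r, Complex.exp (h s i) = c i s := by
  have h1 : ∀ᶠ s in 𝓝 t, s ∈ U ∧ ∀ i, c i s / c i t ∈ Complex.slitPlane := by
    have h1' : ∀ᶠ s in 𝓝 t, s ∈ U := hU.mem_nhds ht
    refine h1'.and ?_
    rw [eventually_all]
    intro i
    have hcont : ContinuousAt (fun s => c i s / c i t) t :=
      (hc i t ht).continuousAt.div_const _
    refine hcont.eventually_mem (Complex.isOpen_slitPlane.mem_nhds ?_)
    show c i t / c i t ∈ Complex.slitPlane
    rw [div_self (h0 i)]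
    exact Complex.one_mem_slitPlane
  obtain ⟨r, hr, h2⟩ := Metric.eventually_nhds_iff_ball.1 h1
  refine ⟨r, hr, fun s hs => (h2 s hs).1,
    fun s i => Complex.log (c i s / c i t) + Complex.log (c i t), ?_, ?_⟩
  · intro i s hs
    have h3 : AnalyticAt ℂ (fun s => c i s / c i t) s :=
      (hc i s (h2 s hs).1).div analyticAt_const (h0 i)
    exact (h3.clog ((h2 s hs).2 i)).add analyticAt_const
  · intro i s hs
    have h4 := Complex.slitPlane_ne_zero ((h2 s hs).2 i)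
    rw [Complex.exp_add, Complex.exp_log h4, Complex.exp_log (h0 i), div_mul_cancel₀ _ (h0 i)]

theorem moved_on {n K : ℕ} {U : Set ℂ} (hU : IsOpen U) (hUc : IsPreconnected U) (F H : ℂ[X][X])
    (A B : Fin n → ℂ[X][X]) (c : Fin n → ℂ → ℂ) (f : Fin K → ℂ → ℂ)
    (P : Fin K → MvPolynomial (Fin n) ℂ[X][X])
    (hF : Irreducible F) (hd : 1 ≤ F.natDegree) (hH : ¬ F ∣ H) (hAi : ∀ i, ¬ F ∣ A i)
    (hBi : ∀ i, ¬ F ∣ B i) (hf : ∀ k, AnalyticOnNhd ℂ (f k) U)
    (hc : ∀ i, AnalyticOnNhd ℂ (c i) U) :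
    QmOn U (MSet F H A B c f P) := by
  by_cases hz : ∃ i, ∀ s ∈ U, c i s = 0
  · obtain ⟨i, hi⟩ := hz
    left
    have : U ∩ MSet F H A B c f P = ∅ := by
      rw [Set.eq_empty_iff_forall_notMem]
      rintro s ⟨hs, z, v, x, -, -, -, a4, -⟩
      have h1 := a4 i
      rw [hi s hs, zero_mul] at h1
      exact Complex.exp_ne_zero _ h1
    rw [this]
    exact Set.countable_empty
  push Not at hz
  have hBc : (⋃ i, U ∩ {s | c i s = 0}).Countable :=
    Set.countable_iUnion fun i => zeros_countableOn hUc (hc i) (hz i)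
  refine QmOn.of_local hU hUc hBc ?_
  intro t ht htB
  have h0 : ∀ i, c i t ≠ 0 := by
    intro i h
    exact htB (Set.mem_iUnion.2 ⟨i, ht, h⟩)
  obtain ⟨r, hr, hsub, h, hh, hhc⟩ := local_log hU hc ht h0
  exact ⟨r, hr, moved_of_log (convex_ball t r).isPreconnected F H A B c f P hF hd hH hAi hBi
    (fun k => (hf k).mono hsub) h hh hhc⟩

end Pool.Agent.R579.CT
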